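import Mathlib
import Pool.Agent.TEH.All

/-!
# Two edge-disjoint directed Hamiltonian cycles in digraphs with minimum semidegree `n / 2`

For all sufficiently large `n`, every loopless digraph on `n` vertices (without parallel arcs) in
which every out-degree and every in-degree is at least `n / 2` has two directed Hamiltonian cycles
that share no arc.
-/

set_option autoImplicit false

namespace Pool.Agent.Results.MP_fa7ade_co.LargeN

/-- `c` is a directed Hamiltonian cycle of the digraph `D` on the vertex set `Fin n`:
the bijection `c` from the cyclic group of order `n` enumerates all vertices in cyclic order,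
and for every `i` there is an arc from `c i` to `c (i + 1)`. -/
def IsHamCycle {n : ℕ} (D : Digraph (Fin n)) (c : ZMod n ≃ Fin n) : Prop :=
  ∀ i : ZMod n, D.Adj (c i) (c (i + 1))

/-- `D` has two directed Hamiltonian cycles that share no arc. -/
def HasTwoEdgeDisjointHamCycles {n : ℕ} (D : Digraph (Fin n)) : Prop :=
  ∃ c d : ZMod n ≃ Fin n, IsHamCycle D c ∧ IsHamCycle D d ∧
    ∀ i j : ZMod n, ¬ (c i = d j ∧ c (i + 1) = d (j + 1))

/-- There is `n₀` such that for every `n ≥ n₀`, every loopless digraph on `n` vertices in which
every out-degree and every in-degree is at least `n / 2` has two edge-disjoint directed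
Hamiltonian cycles. -/
theorem result : ∃ n₀ : ℕ, ∀ n : ℕ, n₀ ≤ n → ∀ D : Digraph (Fin n),
    (∀ v, ¬ D.Adj v v) →
    (∀ v, n ≤ 2 * {w | D.Adj v w}.ncard ∧ n ≤ 2 * {w | D.Adj w v}.ncard) →
    HasTwoEdgeDisjointHamCycles D :=
  Pool.Agent.TEH.q_final

end Pool.Agent.Results.MP_fa7ade_co.LargeN
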