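import Mathlib

/-!
# A digraph on six vertices with minimum semidegree three and no two edge-disjoint
directed Hamiltonian cycles

The digraph is the Cayley digraph of the cyclic group of order six with connection set
`{1, 2, 4}`.
-/

namespace Pool.Agent.Results.MP_fa7ade_co.SixVertices

/-- `c` is a directed Hamiltonian cycle of the digraph `D` on the vertex set `Fin n`:
the bijection `c` from the cyclic group of order `n` enumerates all vertices in cyclic order,
and for every `i` there is an arc from `c i` to `c (i + 1)`. -/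
def IsHamCycle {n : ℕ} (D : Digraph (Fin n)) (c : ZMod n ≃ Fin n) : Prop :=
  ∀ i : ZMod n, D.Adj (c i) (c (i + 1))

/-- `D` has two directed Hamiltonian cycles that share no arc. -/
def HasTwoEdgeDisjointHamCycles {n : ℕ} (D : Digraph (Fin n)) : Prop :=
  ∃ c d : ZMod n ≃ Fin n, IsHamCycle D c ∧ IsHamCycle D d ∧
    ∀ i j : ZMod n, ¬ (c i = d j ∧ c (i + 1) = d (j + 1))

/-- The arc relation of the Cayley digraph of the cyclic group of order six with connection
set `{1, 2, 4}`, as a Boolean function. -/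
def arc (u v : Fin 6) : Bool :=
  v == u + 1 || v == u + 2 || v == u + 4

/-- The Cayley digraph with arc relation `arc`. -/
def cay : Digraph (Fin 6) := ⟨fun u v => arc u v = true⟩

/-- The list of arcs of a cyclic six-tuple. -/
def code (a0 a1 a2 a3 a4 a5 : Fin 6) : List (Fin 6 × Fin 6) :=
  [(a0, a1), (a1, a2), (a2, a3), (a3, a4), (a4, a5), (a5, a0)]

/-- The arcs of the four Hamiltonian cycles of `cay`. -/
def cycs : List (List (Fin 6 × Fin 6)) :=
  [[(0, 1), (1, 2), (2, 3), (3, 4), (4, 5), (5, 0)],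
   [(0, 4), (4, 2), (2, 3), (3, 1), (1, 5), (5, 0)],
   [(2, 0), (0, 4), (4, 5), (5, 3), (3, 1), (1, 2)],
   [(4, 2), (2, 0), (0, 1), (1, 5), (5, 3), (3, 4)]]

/-- The six-tuple is a directed Hamiltonian cycle of `cay` (Boolean version). -/
def hamB (a0 a1 a2 a3 a4 a5 : Fin 6) : Bool :=
  arc a0 a1 && (arc a1 a2 && (arc a2 a3 && (arc a3 a4 && (arc a4 a5 && (arc a5 a0 &&
  (a0 != a2 && a0 != a3 && a0 != a4 && a1 != a3 && a1 != a4 && a1 != a5 &&
  a2 != a4 && a2 != a5 && a3 != a5))))))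

lemma ham_cases : ∀ a0 a1 a2 a3 a4 a5 : Fin 6, hamB a0 a1 a2 a3 a4 a5 = true →
    ∃ l ∈ cycs, ∀ x ∈ l, x ∈ code a0 a1 a2 a3 a4 a5 := by
  decide +kernel

lemma cycs_meet : ∀ l ∈ cycs, ∀ m ∈ cycs, ∃ x ∈ l, x ∈ m := by
  decide +kernel

/-- The arc list of a Hamiltonian cycle of `cay` contains one of the lists in `cycs`. -/
lemma exists_cyc (c : ZMod 6 ≃ Fin 6) (hc : IsHamCycle cay c) :
    ∃ l ∈ cycs, ∀ x ∈ l, ∃ i : ZMod 6, c i = x.1 ∧ c (i + 1) = x.2 := by
  have hne : ∀ i j : ZMod 6, i ≠ j → c i ≠ c j := fun i j h => c.injective.ne h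
  have hA : ∀ i : ZMod 6, arc (c i) (c (i + 1)) = true := hc
  have h0 := hA 0
  have h1 := hA 1
  have h2 := hA 2
  have h3 := hA 3
  have h4 := hA 4
  have h5 := hA 5
  have e2 : (1 : ZMod 6) + 1 = 2 := by decide
  have e3 : (2 : ZMod 6) + 1 = 3 := by decide
  have e4 : (3 : ZMod 6) + 1 = 4 := by decide
  have e5 : (4 : ZMod 6) + 1 = 5 := by decide
  have e6 : (5 : ZMod 6) + 1 = 0 := by decide
  rw [zero_add] at h0
  rw [e2] at h1
  rw [e3] at h2
  rw [e4] at h3
  rw [e5] at h4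
  rw [e6] at h5
  obtain ⟨l, hl, hx⟩ := ham_cases (c 0) (c 1) (c 2) (c 3) (c 4) (c 5) (by
    simp only [hamB, h0, h1, h2, h3, h4, h5, Bool.true_and, Bool.and_eq_true, bne_iff_ne]
    exact ⟨⟨⟨⟨⟨⟨⟨⟨hne _ _ (by decide), hne _ _ (by decide)⟩, hne _ _ (by decide)⟩,
      hne _ _ (by decide)⟩, hne _ _ (by decide)⟩, hne _ _ (by decide)⟩, hne _ _ (by decide)⟩,
      hne _ _ (by decide)⟩, hne _ _ (by decide)⟩)
  refine ⟨l, hl, fun x hxl => ?_⟩
  have := hx x hxl
  simp only [code, List.mem_cons, List.not_mem_nil, or_false] at this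
  rcases this with rfl | rfl | rfl | rfl | rfl | rfl
  · exact ⟨0, rfl, rfl⟩
  · exact ⟨1, rfl, rfl⟩
  · exact ⟨2, rfl, rfl⟩
  · exact ⟨3, rfl, rfl⟩
  · exact ⟨4, rfl, rfl⟩
  · exact ⟨5, rfl, rfl⟩

/-- There is a loopless digraph on six vertices in which every out-degree and every in-degree
is at least `3 = 6 / 2` and which has no two edge-disjoint directed Hamiltonian cycles. -/
theorem result : ∃ D : Digraph (Fin 6),
    (∀ v, ¬ D.Adj v v) ∧
    (∀ v, 3 ≤ {w | D.Adj v w}.ncard ∧ 3 ≤ {w | D.Adj w v}.ncard) ∧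
    ¬ HasTwoEdgeDisjointHamCycles D := by
  refine ⟨cay, ?_, ?_, ?_⟩
  · intro v
    have : ∀ v : Fin 6, ¬ arc v v = true := by decide
    exact this v
  · intro v
    have h1 : ∀ v : Fin 6, 3 ≤ (Finset.univ.filter fun w => arc v w = true).card := by decide
    have h2 : ∀ v : Fin 6, 3 ≤ (Finset.univ.filter fun w => arc w v = true).card := by decide
    constructor
    · have := h1 v
      rw [← Set.ncard_coe_finset] at this
      simpa [cay] using this
    · have := h2 v
      rw [← Set.ncard_coe_finset] at this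
      simpa [cay] using this
  · rintro ⟨c, d, hc, hd, hcd⟩
    obtain ⟨l, hl, hlc⟩ := exists_cyc c hc
    obtain ⟨m, hm, hmd⟩ := exists_cyc d hd
    obtain ⟨x, hxl, hxm⟩ := cycs_meet l hl m hm
    obtain ⟨i, hi, hi'⟩ := hlc x hxl
    obtain ⟨j, hj, hj'⟩ := hmd x hxm
    exact hcd i j ⟨hi.trans hj.symm, hi'.trans hj'.symm⟩

end Pool.Agent.Results.MP_fa7ade_co.SixVertices
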